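import Mathlib

/-!
# Letter-to-letter projections of episturmian words are rich

Let `u` be an episturmian word over `A` and `ζ : A → B` any map. We prove that the projected
word `ζ(u)` is rich. In particular every binary projection of an episturmian word is rich.
-/

namespace Pool.Agent.Results.MP_8d80dd_co.ProjectionRich

open List

/-! ### Definitions -/

/-- The factor `u_i u_{i+1} ⋯ u_{i+n-1}` of the infinite word `u`. -/
def fac {A : Type*} (u : ℕ → A) (i n : ℕ) : List A := (List.range n).map fun k => u (i + k)

/-- `w` is a factor of the infinite word `u`. -/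
def Lang {A : Type*} (u : ℕ → A) (w : List A) : Prop := ∃ i, w = fac u i w.length

/-- The set of palindromic factors of a finite word (including the empty word). -/
def pals {A : Type*} (w : List A) : Set (List A) := {p | p <:+: w ∧ p.reverse = p}

/-- A finite word is rich if it has `|w| + 1` distinct palindromic factors. -/
def RichWord {A : Type*} (w : List A) : Prop := (pals w).ncard = w.length + 1

/-- An infinite word is rich if all its factors are rich. -/
def Rich {A : Type*} (u : ℕ → A) : Prop := ∀ w : List A, Lang u w → RichWord w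

/-- `w` is a left special factor of `u`. -/
def LeftSpecial {A : Type*} (u : ℕ → A) (w : List A) : Prop :=
  ∃ a b : A, a ≠ b ∧ Lang u (a :: w) ∧ Lang u (b :: w)

/-- `u` is episturmian: its language is closed under reversal and it has at most one left
special factor of each length. -/
def Episturmian {A : Type*} (u : ℕ → A) : Prop :=
  (∀ w : List A, Lang u w → Lang u w.reverse) ∧
    ∀ w₁ w₂ : List A, w₁.length = w₂.length → LeftSpecial u w₁ → LeftSpecial u w₂ → w₁ = w₂

variable {A : Type*}

/-! ### Basic lemmas on factors -/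

theorem fac_length (u : ℕ → A) (i n : ℕ) : (fac u i n).length = n := by simp [fac]

theorem fac_zero (u : ℕ → A) (i : ℕ) : fac u i 0 = [] := by simp [fac]

theorem fac_succ (u : ℕ → A) (i n : ℕ) : fac u i (n + 1) = fac u i n ++ [u (i + n)] := by
  simp [fac, List.range_succ]

theorem fac_add (u : ℕ → A) (i m n : ℕ) :
    fac u i (m + n) = fac u i m ++ fac u (i + m) n := by
  simp [fac, List.range_add, Nat.add_assoc]

theorem fac_cons (u : ℕ → A) (i n : ℕ) : fac u i (n + 1) = u i :: fac u (i + 1) n := by
  rw [Nat.add_comm n 1, fac_add]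
  simp [fac]

theorem fac_getElem (u : ℕ → A) (i n k : ℕ) (h : k < (fac u i n).length) :
    (fac u i n)[k] = u (i + k) := by simp [fac]

theorem fac_infix (u : ℕ → A) {a m b n : ℕ} (h1 : b ≤ a) (h2 : a + m ≤ b + n) :
    fac u a m <:+: fac u b n := by
  obtain ⟨c, rfl⟩ := Nat.exists_eq_add_of_le h1
  obtain ⟨d, hd⟩ := Nat.exists_eq_add_of_le h2
  have : n = c + (m + d) := by omega
  subst this
  rw [fac_add, fac_add]
  exact ⟨fac u b c, fac u (b + c + m) d, by simp⟩

theorem fac_prefix (u : ℕ → A) (i : ℕ) {m n : ℕ} (h : m ≤ n) : fac u i m <+: fac u i n := by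
  obtain ⟨c, rfl⟩ := Nat.exists_eq_add_of_le h
  rw [fac_add]; exact ⟨_, rfl⟩

/-- If `fac u i n = s ++ x ++ t` then `x` is the factor at position `i + |s|`. -/
theorem fac_split {u : ℕ → A} {i n : ℕ} {s x t : List A} (h : s ++ x ++ t = fac u i n) :
    s = fac u i s.length ∧ x = fac u (i + s.length) x.length ∧
      t = fac u (i + s.length + x.length) t.length ∧ n = s.length + x.length + t.length := by
  have hn : n = s.length + x.length + t.length := by
    have := congrArg List.length h
    simp only [List.length_append, fac_length] at this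
    omega
  subst hn
  rw [fac_add, fac_add] at h
  have h1 := List.append_inj h (by simp [fac_length])
  have h2 := List.append_inj h1.1 (by simp [fac_length])
  refine ⟨h2.1, h2.2, ?_, rfl⟩
  rw [Nat.add_assoc i]
  exact h1.2

theorem lang_fac (u : ℕ → A) (i n : ℕ) : Lang u (fac u i n) := ⟨i, by rw [fac_length]⟩

theorem Lang.sub {u : ℕ → A} {w v : List A} (hw : Lang u w) (hv : v <:+: w) : Lang u v := by
  obtain ⟨i, hi⟩ := hw
  obtain ⟨s, t, h⟩ := hv
  rw [hi] at h
  exact ⟨i + s.length, (fac_split h).2.1⟩

/-! ### Palindromic factors and defect -/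

theorem pals_finite (w : List A) : (pals w).Finite := by
  apply Set.Finite.subset (List.finite_toSet w.sublists)
  rintro p ⟨hp, -⟩
  simpa using hp.sublist

theorem pals_reverse (w : List A) : pals w.reverse = pals w := by
  ext p
  constructor
  · rintro ⟨h1, h2⟩
    refine ⟨?_, h2⟩
    rw [← h2]; rw [← List.reverse_infix]; simpa using h1
  · rintro ⟨h1, h2⟩
    refine ⟨?_, h2⟩
    rw [← h2]; rw [List.reverse_infix]; exact h1

theorem pals_nil : pals ([] : List A) = {[]} := by
  ext p
  simp only [pals, Set.mem_ofPred_eq, List.infix_nil, Set.mem_singleton_iff]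
  constructor
  · rintro ⟨h, -⟩; exact h
  · rintro rfl; simp

theorem pals_mono {v w : List A} (h : v <:+: w) : pals v ⊆ pals w :=
  fun _ hp => ⟨hp.1.trans h, hp.2⟩

/-- A palindromic factor of `w ++ [x]` that is not a factor of `w` is unique. -/
theorem new_pal_unique {w : List A} {x : A} {p q : List A} (hp : p ∈ pals (w ++ [x]))
    (hp' : ¬ p <:+: w) (hq : q ∈ pals (w ++ [x])) (hq' : ¬ q <:+: w) : p = q := by
  have key : ∀ p q : List A, p ∈ pals (w ++ [x]) → ¬ p <:+: w → q ∈ pals (w ++ [x]) →
      ¬ q <:+: w → p.length ≤ q.length → p = q := by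
    intro p q hp hp' hq hq' hl
    have hps : p <:+ w ++ [x] := by
      rcases List.infix_concat_iff.1 hp.1 with h | h
      · exact h
      · exact absurd h hp'
    have hqs : q <:+ w ++ [x] := by
      rcases List.infix_concat_iff.1 hq.1 with h | h
      · exact h
      · exact absurd h hq'
    have hpq : p <:+ q := List.suffix_of_suffix_length_le hps hqs hl
    have hpq' : p <+: q := by
      have := List.reverse_prefix.2 hpq
      rwa [hp.2, hq.2] at this
    obtain ⟨t, ht⟩ := hpq'
    rcases List.eq_nil_or_concat t with h0 | ⟨t', y, h0⟩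
    · subst h0; simpa using ht
    · exfalso
      apply hp'
      obtain ⟨s, hs⟩ := hqs
      rw [← ht, h0] at hs
      have : (s ++ p ++ t') ++ [y] = w ++ [x] := by
        rw [← hs]; simp
      have := (List.append_inj' this rfl).1
      rw [← this]
      exact ⟨s, t', rfl⟩
  rcases le_total p.length q.length with h | h
  · exact key p q hp hp' hq hq' h
  · exact (key q p hq hq' hp hp' h).symm

/-! ### Returns -/

/-- Position `j` shows the same length-`n` factor as position `i`, up to reversal. -/
def Vis (u : ℕ → A) (n i j : ℕ) : Prop :=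
  fac u j n = fac u i n ∨ fac u j n = (fac u i n).reverse

/-- All complete returns at level `n` (up to reversal) are palindromes. -/
def Ret (u : ℕ → A) (n : ℕ) : Prop :=
  ∀ i j, i < j → Vis u n i j → (∀ t, i < t → t < j → ¬ Vis u n i t) →
    (fac u i (j - i + n)).reverse = fac u i (j - i + n)

/-- The level-`n` quotient Rauzy graph has trivial first cohomology. -/
def Pot (u : ℕ → A) (n : ℕ) : Prop :=
  ∀ θ : List A → ℚ, (∀ z, θ z.reverse = - θ z) →
    ∃ G : List A → ℚ, (∀ w, G w.reverse = G w) ∧
      ∀ i, θ (fac u i (n + 1)) = G (fac u (i + 1) n) - G (fac u i n)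

/-! ### From potentials back to zero defect -/

theorem vis_sum {u : ℕ → A} {n : ℕ} {θ G : List A → ℚ}
    (hG : ∀ i, θ (fac u i (n + 1)) = G (fac u (i + 1) n) - G (fac u i n)) (i d : ℕ) :
    ∑ t ∈ Finset.range d, θ (fac u (i + t) (n + 1)) = G (fac u (i + d) n) - G (fac u i n) := by
  induction d with
  | zero => simp
  | succ d ih =>
    rw [Finset.sum_range_succ, ih, hG]
    rw [Nat.add_assoc]
    ring

theorem ret_of_pot {u : ℕ → A} (h : ∀ n, Pot u n) : ∀ n, Ret u n := by
  classical
  have main : ∀ d n i, 0 < d → Vis u n i (i + d) →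
      (∀ t, i < t → t < i + d → ¬ Vis u n i t) →
      (fac u i (d + n)).reverse = fac u i (d + n) := by
    intro d
    induction d with
    | zero => intro n i h0; omega
    | succ d ih =>
      intro n i _ hvis hno
      let z := fac u i (n + 1)
      by_cases hz : z.reverse = z
      · -- then `d = 0`
        have hv1 : Vis u n i (i + 1) := by
          right
          have h1 : z = fac u i n ++ [u (i + n)] := fac_succ _ _ _
          have h2 : z = u i :: fac u (i + 1) n := fac_cons _ _ _
          have h3 : z.reverse = (fac u (i + 1) n).reverse ++ [u i] := by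
            rw [h2]; simp
          rw [hz, h1] at h3
          have h4 := (List.append_inj' h3 rfl).1
          rw [h4, List.reverse_reverse]
        have hd : d = 0 := by
          by_contra hne
          exact hno (i + 1) (by omega) (by omega) hv1
        subst hd
        have : 0 + 1 + n = n + 1 := by omega
        rw [this]; exact hz
      · let θ : List A → ℚ := fun x => (if x = z then 1 else 0) - (if x.reverse = z then 1 else 0)
        have hθ : ∀ x, θ x.reverse = - θ x := by
          intro x
          simp only [θ, List.reverse_reverse]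
          ring
        obtain ⟨G, hG1, hG2⟩ := h n θ hθ
        have hs := vis_sum hG2 i (d + 1)
        have hGe : G (fac u (i + (d + 1)) n) = G (fac u i n) := by
          rcases hvis with h' | h'
          · rw [h']
          · rw [h', hG1]
        rw [hGe, sub_self] at hs
        rw [Finset.sum_range_succ'] at hs
        have hz0 : θ (fac u (i + 0) (n + 1)) = 1 := by
          simp only [θ, Nat.add_zero]
          rw [if_pos rfl, if_neg hz]; norm_num
        rw [hz0] at hs
        have hex : ∃ t ∈ Finset.range d, θ (fac u (i + (t + 1)) (n + 1)) < 0 := by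
          by_contra hcon
          push Not at hcon
          have := Finset.sum_nonneg hcon
          linarith
        obtain ⟨t, ht, hneg⟩ := hex
        have ht' := Finset.mem_range.1 ht
        have hrev : (fac u (i + (t + 1)) (n + 1)).reverse = z := by
          by_contra hne
          simp only [θ, if_neg hne] at hneg
          split_ifs at hneg <;> norm_num at hneg
        have hv : Vis u n i (i + (t + 1) + 1) := by
          right
          have h1 : z = fac u i n ++ [u (i + n)] := fac_succ _ _ _
          have h2 : fac u (i + (t + 1)) (n + 1) = u (i + (t + 1)) :: fac u (i + (t + 1) + 1) n :=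
            fac_cons _ _ _
          rw [h2, h1, List.reverse_cons] at hrev
          have h4 := (List.append_inj' hrev rfl).1
          rw [← h4, List.reverse_reverse]
        have htd : t + 1 = d := by
          by_contra hne
          exact hno (i + (t + 1) + 1) (by omega) (by omega) hv
        have hvis' : Vis u (n + 1) i (i + d) := by
          right
          rw [← htd]
          have : fac u i (n + 1) = z := rfl
          rw [this, ← hrev, List.reverse_reverse]
        have hno' : ∀ s, i < s → s < i + d → ¬ Vis u (n + 1) i s := by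
          intro s h1 h2 h3
          rcases h3 with h3 | h3
          · apply hno s h1 (by omega)
            left
            rw [fac_succ, fac_succ] at h3
            exact (List.append_inj' h3 rfl).1
          · apply hno (s + 1) (by omega) (by omega)
            right
            rw [fac_cons, fac_succ, List.reverse_append] at h3
            simp only [List.reverse_cons, List.reverse_nil, List.nil_append,
              List.singleton_append, List.cons.injEq] at h3
            exact h3.2
        have := ih (n + 1) i (by omega) hvis' hno'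
        have he : d + 1 + n = d + (n + 1) := by omega
        rw [he]; exact this
  intro n i j hij hvis hno
  obtain ⟨d, rfl⟩ := Nat.exists_eq_add_of_le hij.le
  have : i + d - i = d := by omega
  rw [this]
  exact main d n i (by omega) hvis hno

theorem rich_of_ret {u : ℕ → A} (h : ∀ n, Ret u n) (i n : ℕ) :
    (pals (fac u i n)).ncard = n + 1 := by
  classical
  have key : ∀ n, (pals (fac u i n)).ncard = n + 1 := by
    intro n
    induction n with
    | zero => rw [fac_zero, pals_nil]; simp
    | succ n ih =>
      -- longest palindromic suffix, via the least starting position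
      let P : ℕ → Prop := fun k => k ≤ n ∧
        (fac u (i + k) (n + 1 - k)).reverse = fac u (i + k) (n + 1 - k)
      have hex : ∃ k, P k := ⟨n, le_rfl, by
        have : n + 1 - n = 1 := by omega
        rw [this]; simp [fac]⟩
      let k := Nat.find hex
      have hk : P k := Nat.find_spec hex
      have hmin : ∀ t, t < k → ¬ P t := fun t ht => Nat.find_min hex ht
      let s := fac u (i + k) (n + 1 - k)
      have hsl : s.length = n + 1 - k := fac_length _ _ _
      have hnot : ¬ s <:+: fac u i n := by
        rintro ⟨a, b, hab⟩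
        obtain ⟨-, h2, -, h4⟩ := fac_split hab
        rw [hsl] at h4 h2
        -- last visit to `s` strictly before position `i + k`
        let Q : ℕ → Prop := fun t => t < k ∧ fac u (i + t) (n + 1 - k) = s
        have hQ0 : Q a.length := ⟨by omega, h2.symm⟩
        let t := Nat.findGreatest Q k
        have ht : Q t := Nat.findGreatest_spec (P := Q) hQ0.1.le hQ0
        have htmax : ∀ r, t < r → r ≤ k → ¬ Q r := fun r h1 h2 =>
          Nat.findGreatest_is_greatest (P := Q) h1 h2
        have hret := h (n + 1 - k) (i + t) (i + k) (by have := ht.1; omega)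
          (Or.inl (by rw [ht.2])) (by
            intro r h1 h2 h3
            obtain ⟨q, rfl⟩ := Nat.exists_eq_add_of_le (show i ≤ r by omega)
            apply htmax q (by omega) (by omega)
            refine ⟨by omega, ?_⟩
            rcases h3 with h3 | h3
            · rw [h3, ht.2]
            · rw [h3, ht.2]; exact hk.2)
        have he : i + k - (i + t) + (n + 1 - k) = n + 1 - t := by
          have := ht.1; have := hk.1; omega
        rw [he] at hret
        exact hmin t ht.1 ⟨by have := ht.1; have := hk.1; omega, hret⟩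
      have hmem : s ∈ pals (fac u i (n + 1)) :=
        ⟨fac_infix u (by omega) (by have := hk.1; omega), hk.2⟩
      have heq : pals (fac u i (n + 1)) = insert s (pals (fac u i n)) := by
        apply Set.Subset.antisymm
        · intro q hq
          by_cases hq' : q <:+: fac u i n
          · exact Or.inr ⟨hq', hq.2⟩
          · left
            rw [fac_succ] at hq hmem
            exact new_pal_unique hq hq' hmem hnot
        · intro q hq
          rcases hq with rfl | hq
          · exact hmem
          · exact pals_mono (fac_infix u le_rfl (by omega)) hq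
      rw [heq, Set.ncard_insert_of_notMem (fun hh => hnot hh.1) (pals_finite _), ih]
  exact key n

/-! ### Extension graphs -/

/-- The (folded, if `w` is a palindrome) extension graph of `w` is a forest. -/
def FF (u : ℕ → A) (w : List A) : Prop :=
  ∀ θ : A → A → ℚ, (w.reverse = w → ∀ a b, θ b a = - θ a b) →
    ∃ gL gR : A → ℚ, ∀ a b, Lang u (a :: (w ++ [b])) → θ a b = gR b - gL a

theorem pot_zero (u : ℕ → A) : Pot u 0 := by
  intro θ hθ
  refine ⟨fun _ => 0, fun _ => rfl, fun i => ?_⟩
  have h1 : fac u i (0 + 1) = [u i] := by simp [fac]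
  have := hθ [u i]
  rw [h1]
  simp only [List.reverse_singleton] at this
  linarith

theorem pot_succ {u : ℕ → A} (hrev : ∀ w, Lang u w → Lang u w.reverse) {n : ℕ} (h : Pot u n)
    (hF : ∀ w : List A, w.length = n → FF u w) : Pot u (n + 1) := by
  classical
  intro θ hθ
  have a0 : A := u 0
  -- choose potentials on all extension graphs
  have hch : ∀ w : List A, ∃ g : (A → ℚ) × (A → ℚ), w.length = n →
      ∀ a b, Lang u (a :: (w ++ [b])) → θ (a :: (w ++ [b])) = g.2 b - g.1 a := by
    intro w
    by_cases hw : w.length = n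
    · obtain ⟨gL, gR, hg⟩ := hF w hw (fun a b => θ (a :: (w ++ [b]))) (by
        intro hp a b
        rw [← hθ]
        congr 1
        simp [hp])
      exact ⟨(gL, gR), fun _ => hg⟩
    · exact ⟨(fun _ => 0, fun _ => 0), fun h' => absurd h' hw⟩
  choose g hg using hch
  let L : List A → A → ℚ := fun w a => ((g w).1 a + (g w.reverse).2 a) / 2
  have hL : ∀ w a b, w.length = n → Lang u (a :: (w ++ [b])) →
      θ (a :: (w ++ [b])) = L w.reverse b - L w a := by
    intro w a b hw hab
    have h1 := hg w hw a b hab
    have h2 := hg w.reverse (by simpa using hw) b a (by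
      have := hrev _ hab
      simpa using this)
    have h3 : θ (b :: (w.reverse ++ [a])) = - θ (a :: (w ++ [b])) := by
      rw [← hθ]; congr 1; simp
    rw [h3] at h2
    simp only [L, List.reverse_reverse]
    linarith
  let hd : List A → A := fun z => z.head?.getD a0
  let tl : List A → A := fun z => z.getLast?.getD a0
  have hhdr : ∀ z, hd z.reverse = tl z := by intro z; simp [hd, tl]
  have htlr : ∀ z, tl z.reverse = hd z := by intro z; simp [hd, tl]
  let lam : List A → ℚ := fun y => L y.tail (hd y)
  obtain ⟨G, hG1, hG2⟩ := h (fun y => lam y - lam y.reverse) (by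
    intro z; simp only [List.reverse_reverse]; ring)
  refine ⟨fun y => ((lam y - G y.tail) + (lam y.reverse - G y.reverse.tail)) / 2, ?_, ?_⟩
  · intro y
    simp only [List.reverse_reverse]
    ring
  · intro i
    -- `fac u i (n+2) = a w b`
    set w := fac u (i + 1) n with hw
    set a := u i with ha
    set b := u (i + (n + 1)) with hb
    have hz : fac u i (n + 1 + 1) = a :: (w ++ [b]) := by
      rw [fac_cons, fac_succ]
      have : i + 1 + n = i + (n + 1) := by omega
      rw [this]
    have hy0 : fac u i (n + 1) = a :: w := fac_cons _ _ _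
    have hy1 : fac u (i + 1) (n + 1) = w ++ [b] := by
      rw [fac_succ]
      have : i + 1 + n = i + (n + 1) := by omega
      rw [this]
    have hwl : w.length = n := fac_length _ _ _
    have hθz := hL w a b hwl (by rw [← hz]; exact lang_fac _ _ _)
    -- relation from `Pot u n`
    have r0 := hG2 i
    have r1 := hG2 (i + 1)
    rw [hy0] at r0
    rw [hy1] at r1
    have e0 : fac u i n = (a :: w).dropLast := by
      rw [← hy0, fac_succ]; simp
    have e1 : fac u (i + 1 + 1) n = (w ++ [b]).tail := by
      rw [← hy1, fac_cons]; simp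
    rw [e0] at r0
    rw [e1] at r1
    have t1 : G (a :: w).reverse.tail = G (a :: w).dropLast := by
      rw [List.tail_reverse, hG1]
    have t2 : G (w ++ [b]).reverse.tail = G w := by
      rw [List.tail_reverse, hG1]; simp
    have t3 : (a :: w).tail = w := rfl
    have hlam1 : lam (a :: w) = L w a := by simp [lam, hd]
    have hlam2 : lam (w ++ [b]).reverse = L w.reverse b := by simp [lam, hd]
    rw [hz, hy0, hy1, hθz]
    simp only [t1, t2, t3]
    rw [hlam1] at r0 ⊢
    rw [hlam2] at r1 ⊢
    linarith


/-! ### Episturmian languages -/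

/-- Language-level version of the episturmian property, together with irreducibility. -/
structure Epi {A : Type*} (L : List A → Prop) : Prop where
  fact : ∀ {v w : List A}, L w → v <:+: w → L v
  rev : ∀ {w : List A}, L w → L w.reverse
  irr : ∀ {v w : List A}, L v → L w → ∃ z, L (v ++ z ++ w)
  ls : ∀ {v w : List A} {a b c d : A}, v.length = w.length → a ≠ b → c ≠ d →
    L (a :: v) → L (b :: v) → L (c :: w) → L (d :: w) → v = w
  letter : ∃ a, L [a]

theorem lang_late {u : ℕ → A} (hrev : ∀ w, Lang u w → Lang u w.reverse) {w : List A}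
    (hw : Lang u w) (N : ℕ) : ∃ k, N ≤ k ∧ w = fac u k w.length := by
  obtain ⟨j, hj⟩ := hw
  set p := fac u 0 (j + w.length) with hp
  obtain ⟨r, hr⟩ := hrev p (lang_fac _ _ _)
  obtain ⟨r', hr'⟩ := hrev (fac u 0 (r + p.length + N)) (lang_fac _ _ _)
  rw [fac_add, fac_add, List.reverse_append, List.reverse_append] at hr'
  have hr2 : fac u (0 + r) p.length = p.reverse := by
    rw [Nat.zero_add, ← List.length_reverse]; exact hr.symm
  rw [hr2, List.reverse_reverse] at hr'
  rw [← List.append_assoc] at hr'
  obtain ⟨-, h2, -, -⟩ := fac_split hr'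
  rw [List.length_reverse, fac_length] at h2
  refine ⟨r' + N + j, by omega, ?_⟩
  have hpl : p.length = j + w.length := fac_length _ _ _
  rw [hpl, fac_add, hp, fac_add, Nat.zero_add, ← hj] at h2
  exact (List.append_inj' h2 (by simp [fac_length])).2

theorem epi_lang {u : ℕ → A} (hu : Episturmian u) : Epi (Lang u) where
  fact := fun h1 h2 => h1.sub h2
  rev := fun h => hu.1 _ h
  irr := by
    intro v w hv hw
    obtain ⟨i, hi⟩ := hv
    obtain ⟨k, hk, hk2⟩ := lang_late hu.1 hw (i + v.length)
    obtain ⟨d, rfl⟩ := Nat.exists_eq_add_of_le hk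
    refine ⟨fac u (i + v.length) d, ?_⟩
    have : v ++ fac u (i + v.length) d ++ w = fac u i (v.length + d + w.length) := by
      rw [fac_add, fac_add, ← hi]
      congr 1
      rw [hk2, fac_length, Nat.add_assoc]
    rw [this]; exact lang_fac _ _ _
  ls := by
    intro v w a b c d hl hab hcd h1 h2 h3 h4
    exact hu.2 v w hl ⟨a, b, hab, h1, h2⟩ ⟨c, d, hcd, h3, h4⟩
  letter := ⟨u 0, 0, by simp [fac]⟩

theorem sep_aux {L : List A → Prop} (hL : Epi L) {a : A} (ha : L [a])
    (h : ∀ b, b ≠ a → ∀ c d, L [b, c] → L [b, d] → c = d) :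
    ∀ b c, L [b, c] → b = a ∨ c = a := by
  intro b c hbc
  by_contra hcon
  push Not at hcon
  obtain ⟨hb, hc⟩ := hcon
  have hcb : L [c, b] := by simpa using hL.rev hbc
  have key : ∀ z : List A, ∀ x, (x = b ∨ x = c) → ¬ L (x :: (z ++ [a])) := by
    intro z
    induction z with
    | nil =>
      intro x hx hl
      rcases hx with rfl | rfl
      · exact hc (h x hb _ _ hbc hl)
      · exact hb (h x hc _ _ hcb hl)
    | cons y z ih =>
      intro x hx hl
      have h1 : L [x, y] := hL.fact hl ⟨[], z ++ [a], by simp⟩
      have h2 : L (y :: (z ++ [a])) := hL.fact hl ⟨[x], [], by simp⟩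
      refine ih y ?_ h2
      rcases hx with rfl | rfl
      · exact Or.inr (h x hb _ _ hbc h1).symm
      · exact Or.inl (h x hc _ _ hcb h1).symm
  have hLb : L [b] := hL.fact hbc ⟨[], [c], rfl⟩
  obtain ⟨z, hz⟩ := hL.irr hLb ha
  exact key z b (Or.inl rfl) (by simpa using hz)

theorem exists_sep {L : List A → Prop} (hL : Epi L) :
    ∃ a, L [a] ∧ ∀ b c, L [b, c] → b = a ∨ c = a := by
  by_cases hex : ∃ a x y, x ≠ y ∧ L [x, a] ∧ L [y, a]
  · obtain ⟨a, x, y, hxy, h1, h2⟩ := hex
    have ha : L [a] := hL.fact h1 ⟨[x], [], rfl⟩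
    refine ⟨a, ha, sep_aux hL ha ?_⟩
    intro b hb c d h3 h4
    by_contra hcd
    have h5 : L [c, b] := by simpa using hL.rev h3
    have h6 : L [d, b] := by simpa using hL.rev h4
    have := hL.ls (v := [b]) (w := [a]) rfl hcd hxy h5 h6 h1 h2
    simp only [List.cons.injEq, and_true] at this
    exact hb this
  · obtain ⟨a, ha⟩ := hL.letter
    refine ⟨a, ha, sep_aux hL ha ?_⟩
    intro b _ c d h3 h4
    by_contra hcd
    have h5 : L [c, b] := by simpa using hL.rev h3
    have h6 : L [d, b] := by simpa using hL.rev h4
    exact hex ⟨b, c, d, hcd, h5, h6⟩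

/-! ### The elementary morphism -/

open Classical in
/-- The elementary episturmian morphism `a ↦ a`, `b ↦ ab`. -/
noncomputable def psi (a : A) (w : List A) : List A :=
  w.flatMap fun b => if b = a then [a] else [a, b]

theorem psi_nil (a : A) : psi a [] = [] := rfl

theorem psi_append (a : A) (v w : List A) : psi a (v ++ w) = psi a v ++ psi a w := by
  simp [psi]

theorem psi_cons_self (a : A) (w : List A) : psi a (a :: w) = a :: psi a w := by
  simp [psi]

theorem psi_cons_ne {a b : A} (h : b ≠ a) (w : List A) : psi a (b :: w) = a :: b :: psi a w := by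
  simp [psi, h]

theorem psi_head (a : A) (w : List A) : ∃ t, psi a w ++ [a] = a :: t := by
  cases w with
  | nil => exact ⟨[], rfl⟩
  | cons b w =>
    by_cases h : b = a
    · subst h; rw [psi_cons_self]; exact ⟨_, rfl⟩
    · rw [psi_cons_ne h]; exact ⟨_, rfl⟩

theorem psi_last (a : A) (w : List A) (b : A) : ∃ t, psi a (w ++ [b]) = t ++ [b] := by
  rw [psi_append]
  by_cases h : b = a
  · subst h; rw [psi_cons_self, psi_nil]; exact ⟨_, rfl⟩
  · rw [psi_cons_ne h, psi_nil]; exact ⟨psi a w ++ [a], by simp⟩

theorem psi_reverse (a : A) (w : List A) :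
    (psi a w ++ [a]).reverse = psi a w.reverse ++ [a] := by
  induction w with
  | nil => simp [psi_nil]
  | cons b w ih =>
    rw [List.reverse_cons, psi_append]
    by_cases h : b = a
    · subst h
      rw [psi_cons_self, psi_cons_self, psi_nil, List.cons_append, List.reverse_cons, ih]
    · rw [psi_cons_ne h, psi_cons_ne h, psi_nil, List.cons_append, List.cons_append,
        List.reverse_cons, List.reverse_cons, ih]
      simp

theorem psi_length (a : A) (w : List A) : w.length ≤ (psi a w).length := by
  induction w with
  | nil => simp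
  | cons b w ih =>
    by_cases h : b = a
    · subst h; rw [psi_cons_self]; simpa using ih
    · rw [psi_cons_ne h]; simp only [List.length_cons]; omega

theorem psi_prefix {a : A} {x y : List A} (h : psi a x ++ [a] <+: psi a y ++ [a]) : x <+: y := by
  induction x generalizing y with
  | nil => exact List.nil_prefix
  | cons b x ih =>
    cases y with
    | nil =>
      exfalso
      have h1 := h.length_le
      have h2 := psi_length a (b :: x)
      simp only [List.length_append, List.length_cons, psi_nil, List.length_nil] at h1 h2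
      omega
    | cons c y =>
      obtain ⟨tx, htx⟩ := psi_head a x
      obtain ⟨ty, hty⟩ := psi_head a y
      by_cases hb : b = a
      · subst hb
        by_cases hc : c = b
        · subst hc
          rw [psi_cons_self, psi_cons_self, List.cons_append, List.cons_append,
            List.prefix_cons_inj] at h
          rw [List.prefix_cons_inj]; exact ih h
        · exfalso
          rw [psi_cons_self, psi_cons_ne hc, List.cons_append, List.cons_append, htx,
            List.cons_append, List.prefix_cons_inj, List.cons_prefix_cons] at h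
          exact hc h.1.symm
      · by_cases hc : c = a
        · exfalso
          subst hc
          rw [psi_cons_self, psi_cons_ne hb, List.cons_append, List.cons_append,
            List.cons_append, hty, List.prefix_cons_inj, List.cons_prefix_cons] at h
          exact hb h.1
        · rw [psi_cons_ne hb, psi_cons_ne hc, List.cons_append, List.cons_append,
            List.cons_append, List.cons_append, List.prefix_cons_inj, List.cons_prefix_cons] at h
          rw [h.1, List.prefix_cons_inj]; exact ih h.2

theorem psi_inj {a : A} {x y : List A} (h : psi a x ++ [a] = psi a y ++ [a]) : x = y := by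
  have h1 : x <+: y := psi_prefix ⟨[], by rw [List.append_nil, h]⟩
  have h2 : y <+: x := psi_prefix ⟨[], by rw [List.append_nil, h]⟩
  exact h1.eq_of_length (le_antisymm h1.length_le h2.length_le)

/-- A decomposition of a coded word at a letter `a` is a decomposition of the word. -/
theorem psi_cut {a : A} {y S T : List A} (h : psi a y ++ [a] = S ++ a :: T) :
    ∃ y₁ y₂, y = y₁ ++ y₂ ∧ psi a y₁ = S ∧ psi a y₂ ++ [a] = a :: T := by
  induction y generalizing S with
  | nil =>
    rw [psi_nil, List.nil_append] at h
    cases S with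
    | nil => exact ⟨[], [], rfl, rfl, h⟩
    | cons s S =>
      exfalso
      have := congrArg List.length h
      simp at this
  | cons b y ih =>
    cases S with
    | nil => exact ⟨[], b :: y, rfl, rfl, h⟩
    | cons s S =>
      by_cases hb : b = a
      · subst hb
        rw [psi_cons_self, List.cons_append, List.cons_append, List.cons.injEq] at h
        obtain ⟨y₁, y₂, h1, h2, h3⟩ := ih h.2
        refine ⟨b :: y₁, y₂, by rw [h1]; rfl, ?_, h3⟩
        rw [psi_cons_self, h2, ← h.1]
      · rw [psi_cons_ne hb, List.cons_append, List.cons_append, List.cons_append,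
          List.cons.injEq] at h
        cases S with
        | nil =>
          exfalso
          rw [List.nil_append, List.cons.injEq] at h
          exact hb h.2.1
        | cons s' S =>
          rw [List.cons_append, List.cons.injEq] at h
          obtain ⟨y₁, y₂, h1, h2, h3⟩ := ih h.2.2
          refine ⟨b :: y₁, y₂, by rw [h1]; rfl, ?_, h3⟩
          rw [psi_cons_ne hb, h2, ← h.1, h.2.1]

theorem psi_two {a : A} {y : List A} {b d : A} (h : [b, d] <:+: psi a y ++ [a]) :
    b = a ∨ d = a := by
  induction y with
  | nil =>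
    exfalso
    have := h.length_le
    simp [psi_nil] at this
  | cons g y ih =>
    obtain ⟨t, ht⟩ := psi_head a y
    by_cases hg : g = a
    · subst hg
      rw [psi_cons_self, List.cons_append, List.infix_cons_iff] at h
      rcases h with h | h
      · rw [List.cons_prefix_cons] at h; exact Or.inl h.1
      · exact ih h
    · rw [psi_cons_ne hg, List.cons_append, List.cons_append, List.infix_cons_iff,
        List.infix_cons_iff] at h
      rcases h with h | h | h
      · rw [List.cons_prefix_cons] at h; exact Or.inl h.1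
      · rw [List.cons_prefix_cons, ht, List.cons_prefix_cons] at h; exact Or.inr h.2.1
      · exact ih h

/-- Words starting with `a` without adjacent letters different from `a` can be decoded. -/
theorem psi_decode {a : A} : ∀ (n : ℕ) (X : List A), X.length ≤ n →
    (∃ t, X ++ [a] = a :: t) → (∀ b d, [b, d] <:+: X ++ [a] → b = a ∨ d = a) →
    ∃ x, X = psi a x := by
  intro n
  induction n with
  | zero =>
    intro X hX _ _
    have : X = [] := List.length_eq_zero_iff.1 (by omega)
    exact ⟨[], this⟩
  | succ n ih =>
    intro X hX hst htwo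
    cases X with
    | nil => exact ⟨[], rfl⟩
    | cons e X =>
      obtain ⟨t, ht⟩ := hst
      rw [List.cons_append, List.cons.injEq] at ht
      obtain ⟨rfl, ht⟩ := ht
      cases X with
      | nil => exact ⟨[e], by simp [psi]⟩
      | cons b X =>
        have h3 : ∀ b' d, [b', d] <:+: X ++ [e] → b' = e ∨ d = e := fun b' d hh =>
          htwo b' d (hh.trans ⟨[e, b], [], by simp⟩)
        by_cases hb : b = e
        · subst hb
          obtain ⟨x, hx⟩ := ih (b :: X) (by simpa using hX) ⟨X ++ [b], rfl⟩ (fun b' d hh =>
            htwo b' d (hh.trans ⟨[b], [], by simp⟩))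
          exact ⟨b :: x, by rw [psi_cons_self, hx]⟩
        · have h4 : ∃ t, X ++ [e] = e :: t := by
            cases X with
            | nil => exact ⟨[], rfl⟩
            | cons f X =>
              have := htwo b f ⟨[e], X ++ [e], by simp⟩
              rcases this with h | h
              · exact absurd h hb
              · exact ⟨X ++ [e], by rw [h]; rfl⟩
          obtain ⟨x, hx⟩ := ih X (by simp only [List.length_cons] at hX; omega) h4 h3
          exact ⟨b :: x, by rw [psi_cons_ne hb, hx]⟩

/-! ### The derived language -/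

theorem epi_derived {L : List A → Prop} (hL : Epi L) {a : A} (ha : L [a])
    (hsep : ∀ b c, L [b, c] → b = a ∨ c = a) : Epi (fun w => L (psi a w ++ [a])) where
  fact := by
    intro v w hw hv
    obtain ⟨s, t, rfl⟩ := hv
    obtain ⟨r, hr⟩ := psi_head a t
    refine hL.fact hw ⟨psi a s, r, ?_⟩
    rw [psi_append, psi_append, List.append_assoc (psi a s ++ psi a v), hr]
    simp
  rev := by
    intro w hw
    rw [← psi_reverse]; exact hL.rev hw
  irr := by
    intro v w hv hw
    obtain ⟨z, hz⟩ := hL.irr hv hw
    obtain ⟨r, hr⟩ := psi_head a w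
    have hz2 : L ((a :: z) ++ [a]) := by
      refine hL.fact hz ⟨psi a v, r, ?_⟩
      rw [hr]; simp
    obtain ⟨x, hx⟩ := psi_decode _ (a :: z) le_rfl ⟨z ++ [a], rfl⟩
      (fun b d h => hsep b d (hL.fact hz2 h))
    refine ⟨x, ?_⟩
    have : psi a (v ++ x ++ w) ++ [a] = psi a v ++ [a] ++ z ++ (psi a w ++ [a]) := by
      rw [psi_append, psi_append, ← hx]; simp
    rw [this]; exact hz
  ls := by
    have hlast : ∀ {v : List A} {b : A}, L (psi a (b :: v) ++ [a]) → L (b :: (psi a v ++ [a])) := by
      intro v b h
      by_cases hb : b = a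
      · subst hb; rw [psi_cons_self] at h; exact h
      · rw [psi_cons_ne hb] at h
        exact hL.fact h ⟨[a], [], by simp⟩
    have key : ∀ {v w : List A} {b c d e : A}, v.length = w.length → b ≠ c → d ≠ e →
        L (b :: (psi a v ++ [a])) → L (c :: (psi a v ++ [a])) →
        L (d :: (psi a w ++ [a])) → L (e :: (psi a w ++ [a])) →
        (psi a v ++ [a]).length ≤ (psi a w ++ [a]).length → v = w := by
      intro v w b c d e hl hbc hde h1 h2 h3 h4 hle
      have hp : ∀ x, L (x :: (psi a w ++ [a])) →
          L (x :: (psi a w ++ [a]).take (psi a v ++ [a]).length) := by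
        intro x hx
        refine hL.fact hx (List.IsPrefix.isInfix ?_)
        rw [List.prefix_cons_inj]
        exact List.take_prefix _ _
      have := hL.ls (v := psi a v ++ [a]) (w := (psi a w ++ [a]).take (psi a v ++ [a]).length)
        (by rw [List.length_take]; omega) hbc hde h1 h2 (hp _ h3) (hp _ h4)
      have h5 : psi a v ++ [a] <+: psi a w ++ [a] := by
        rw [this]; exact List.take_prefix _ _
      exact (psi_prefix h5).eq_of_length hl
    intro v w b c d e hl hbc hde h1 h2 h3 h4
    rcases le_total (psi a v ++ [a]).length (psi a w ++ [a]).length with h | h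
    · exact key hl hbc hde (hlast h1) (hlast h2) (hlast h3) (hlast h4) h
    · exact (key hl.symm hde hbc (hlast h3) (hlast h4) (hlast h1) (hlast h2) h).symm
  letter := by
    obtain ⟨z, hz⟩ := hL.irr ha ha
    obtain ⟨x, hx⟩ := psi_decode _ (a :: z) le_rfl ⟨z ++ [a], rfl⟩
      (fun b d h => hsep b d (hL.fact hz (by simpa using h)))
    cases x with
    | nil => simp [psi_nil] at hx
    | cons b x =>
      obtain ⟨t, ht⟩ := psi_head a x
      refine ⟨b, ?_⟩
      have h1 : L (psi a (b :: x) ++ [a]) := by rw [← hx]; simpa using hz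
      refine hL.fact h1 ⟨[], t, ?_⟩
      have h2 : psi a (b :: x) = psi a [b] ++ psi a x := by rw [← psi_append]; rfl
      rw [h2, List.append_assoc (psi a [b]), ht]; simp

theorem derived_cover {L : List A → Prop} (hL : Epi L) {a : A} (ha : L [a])
    (hsep : ∀ b c, L [b, c] → b = a ∨ c = a) {w : List A} (hw : L w) :
    ∃ x, L (psi a x ++ [a]) ∧ w <:+: psi a x ++ [a] := by
  obtain ⟨z₁, h1⟩ := hL.irr ha hw
  obtain ⟨z₂, h2⟩ := hL.irr h1 ha
  have h2' : L ((a :: (z₁ ++ w ++ z₂)) ++ [a]) := by simpa using h2
  obtain ⟨x, hx⟩ := psi_decode _ (a :: (z₁ ++ w ++ z₂)) le_rfl ⟨_, rfl⟩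
    (fun b d h => hsep b d (hL.fact h2' h))
  refine ⟨x, by rw [← hx]; exact h2', ?_⟩
  rw [← hx]
  exact ⟨a :: z₁, z₂ ++ [a], by simp⟩

/-! ### The invariant: shape of the extension sets -/

variable {B : Type*}

/-- The set of two-sided extensions of `x` in `K` is contained in a cross (if `x` is not a
palindrome), respectively in a symmetric cross plus one diagonal point (if it is). -/
def Inv (K : List B → Prop) (x : List B) : Prop :=
  (x.reverse = x → ∃ s t, ∀ p q, K (p :: (x ++ [q])) → p = s ∨ q = s ∨ (p = t ∧ q = t)) ∧
  (x.reverse ≠ x → ∃ s t, ∀ p q, K (p :: (x ++ [q])) → p = s ∨ q = t)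

theorem Inv.anti {K K' : List B → Prop} {x : List B} (h : Inv K' x) (hK : ∀ y, K y → K' y) :
    Inv K x := by
  refine ⟨fun hx => ?_, fun hx => ?_⟩
  · obtain ⟨s, t, hst⟩ := h.1 hx
    exact ⟨s, t, fun p q hpq => hst p q (hK _ hpq)⟩
  · obtain ⟨s, t, hst⟩ := h.2 hx
    exact ⟨s, t, fun p q hpq => hst p q (hK _ hpq)⟩

/-- The language obtained from `K` by applying the elementary morphism `psi c`. -/
def PsiCl (c : B) (K : List B → Prop) : List B → Prop :=
  fun x => ∃ y, K y ∧ x <:+: psi c y ++ [c]

theorem inv_psi_aux {K : List B → Prop} (hK : ∀ {v w : List B}, K w → v <:+: w → K v) {c : B}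
    {x' : List B} {p q : B} (h : PsiCl c K (p :: ((psi c x' ++ [c]) ++ [q]))) :
    K (p :: (x' ++ [q])) := by
  obtain ⟨y, hy, S, T, hST⟩ := h
  obtain ⟨r, hr⟩ := psi_head c x'
  have h1 : psi c y ++ [c] = (S ++ [p]) ++ c :: (r ++ [q] ++ T) := by
    rw [← hST]
    have : p :: ((psi c x' ++ [c]) ++ [q]) = [p] ++ ((psi c x' ++ [c]) ++ [q]) := rfl
    rw [this, hr]; simp
  obtain ⟨y₁, y₂, h2, h3, h4⟩ := psi_cut h1
  have h5 : psi c y₂ ++ [c] = psi c x' ++ c :: q :: T := by
    rw [h4]
    have : c :: (r ++ [q] ++ T) = (c :: r) ++ ([q] ++ T) := by simp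
    rw [this, ← hr]; simp
  have h6 : x' <+: y₂ := psi_prefix ⟨q :: T, by rw [h5]; simp⟩
  obtain ⟨y₃, rfl⟩ := h6
  rw [psi_append, List.append_assoc] at h5
  have h7 := List.append_cancel_left h5
  -- the last letter of `y₁` is `p`
  have h8 : ∃ y₁', y₁ = y₁' ++ [p] := by
    rcases List.eq_nil_or_concat y₁ with h0 | ⟨y₁', e, h0⟩
    · exfalso
      subst h0
      have := congrArg List.length h3
      simp [psi_nil] at this
    · rw [List.concat_eq_append] at h0
      subst h0
      obtain ⟨t, ht⟩ := psi_last c y₁' e
      rw [ht] at h3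
      have := (List.append_inj' h3 rfl).2
      simp only [List.cons.injEq, and_true] at this
      exact ⟨y₁', by rw [this]⟩
  obtain ⟨y₁', rfl⟩ := h8
  -- the first letter of `y₃` is `q`
  have h9 : ∃ y₄, y₃ = q :: y₄ := by
    cases y₃ with
    | nil =>
      exfalso
      have := congrArg List.length h7
      simp [psi_nil] at this
    | cons g y₄ =>
      by_cases hg : g = c
      · subst hg
        obtain ⟨t, ht⟩ := psi_head g y₄
        rw [psi_cons_self, List.cons_append, ht] at h7
        simp only [List.cons.injEq, true_and] at h7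
        exact ⟨y₄, by rw [h7.1]⟩
      · rw [psi_cons_ne hg] at h7
        simp only [List.cons_append, List.cons.injEq, true_and] at h7
        exact ⟨y₄, by rw [h7.1]⟩
  obtain ⟨y₄, rfl⟩ := h9
  refine hK hy ⟨y₁', y₄, ?_⟩
  rw [h2]; simp

theorem inv_psi {K : List B → Prop} (hK : ∀ {v w : List B}, K w → v <:+: w → K v) {c : B}
    {n : ℕ} (h : ∀ x : List B, x.length < n → Inv K x) (x : List B) (hx : x.length < n + 1) :
    Inv (PsiCl c K) x := by
  have two : ∀ {z : List B}, PsiCl c K z → ∀ {b d : B}, [b, d] <:+: z → b = c ∨ d = c := by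
    rintro z ⟨y, -, hz⟩ b d hbd
    exact psi_two (hbd.trans hz)
  cases x with
  | nil =>
    refine ⟨fun _ => ⟨c, c, fun p q hpq => ?_⟩, fun hne => absurd rfl hne⟩
    rcases two hpq (b := p) (d := q) ⟨[], [], by simp⟩ with h | h
    · exact Or.inl h
    · exact Or.inr (Or.inl h)
  | cons e x =>
    by_cases he : e = c
    · -- starts with `c`
      subst he
      rcases List.eq_nil_or_concat (e :: x) with h0 | ⟨X, f, hX⟩
      · exact absurd h0 (by simp)
      rw [List.concat_eq_append] at hX
      by_cases hf : f = e
      · -- ends with `c`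
        subst hf
        by_cases hex : ∃ p q, PsiCl f K (p :: ((f :: x) ++ [q]))
        · obtain ⟨p, q, hpq⟩ := hex
          obtain ⟨x', hx'⟩ := psi_decode (a := f) _ X le_rfl ⟨x, hX.symm⟩ (by
            intro b d hbd
            refine two hpq (hbd.trans ?_)
            rw [← hX]
            exact ⟨[p], [q], by simp⟩)
          have hxx : f :: x = psi f x' ++ [f] := by rw [hX, hx']
          have hlen : x'.length < n := by
            have h1 := psi_length f x'
            have h2 := congrArg List.length hxx
            simp only [List.length_cons, List.length_append, List.length_nil] at h2 hx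
            omega
          have hI := h x' hlen
          rw [hxx]
          have hpal : (psi f x' ++ [f]).reverse = psi f x' ++ [f] ↔ x'.reverse = x' := by
            rw [psi_reverse]
            constructor
            · intro hh; exact psi_inj hh
            · intro hh; rw [hh]
          refine ⟨fun hp => ?_, fun hp => ?_⟩
          · obtain ⟨s, t, hst⟩ := hI.1 (hpal.1 hp)
            exact ⟨s, t, fun p q hpq => hst p q (inv_psi_aux hK hpq)⟩
          · obtain ⟨s, t, hst⟩ := hI.2 (fun hh => hp (hpal.2 hh))
            exact ⟨s, t, fun p q hpq => hst p q (inv_psi_aux hK hpq)⟩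
        · exact ⟨fun _ => ⟨f, f, fun p q hpq => absurd ⟨p, q, hpq⟩ hex⟩,
            fun _ => ⟨f, f, fun p q hpq => absurd ⟨p, q, hpq⟩ hex⟩⟩
      · have hq : ∀ p q, PsiCl e K (p :: ((e :: x) ++ [q])) → q = e := by
          intro p q hpq
          rw [hX] at hpq
          rcases two hpq (b := f) (d := q) ⟨p :: X, [], by simp⟩ with h | h
          · exact absurd h hf
          · exact h
        exact ⟨fun _ => ⟨e, e, fun p q hpq => Or.inr (Or.inl (hq p q hpq))⟩,
          fun _ => ⟨e, e, fun p q hpq => Or.inr (hq p q hpq)⟩⟩
    · have hp : ∀ p q, PsiCl c K (p :: ((e :: x) ++ [q])) → p = c := by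
        intro p q hpq
        rcases two hpq (b := p) (d := e) ⟨[], x ++ [q], by simp⟩ with h | h
        · exact h
        · exact absurd h he
      exact ⟨fun _ => ⟨c, c, fun p q hpq => Or.inl (hp p q hpq)⟩,
        fun _ => ⟨c, c, fun p q hpq => Or.inl (hp p q hpq)⟩⟩

theorem psiCl_infix {K : List B → Prop} {c : B} {v w : List B} (hw : PsiCl c K w)
    (hv : v <:+: w) : PsiCl c K v := by
  obtain ⟨y, hy, h⟩ := hw
  exact ⟨y, hy, hv.trans h⟩

/-- Iterated version of `inv_psi`. -/
theorem inv_psi_iter {K : List B → Prop} (hK : ∀ {v w : List B}, K w → v <:+: w → K v) {c : B}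
    {n : ℕ} (h : ∀ x : List B, x.length < n → Inv K x) (k : ℕ) :
    (∀ {v w : List B}, (PsiCl c)^[k] K w → v <:+: w → (PsiCl c)^[k] K v) ∧
    (∀ x : List B, x.length < n + k → Inv ((PsiCl c)^[k] K) x) := by
  induction k with
  | zero => exact ⟨fun h1 h2 => hK h1 h2, fun x hx => h x hx⟩
  | succ k ih =>
    rw [Function.iterate_succ_apply']
    exact ⟨fun h1 h2 => psiCl_infix h1 h2, fun x hx => inv_psi ih.1 ih.2 x hx⟩

/-! ### Expansion of letters with multiplicities -/

/-- Expand each letter `(b, k)` to `b` repeated `k` times. -/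
def Exp (y : List (B × ℕ)) : List B := y.flatMap fun p => List.replicate p.2 p.1

theorem exp_nil : Exp ([] : List (B × ℕ)) = [] := rfl

theorem exp_cons (p : B × ℕ) (y : List (B × ℕ)) :
    Exp (p :: y) = List.replicate p.2 p.1 ++ Exp y := by simp [Exp]

theorem exp_append (y z : List (B × ℕ)) : Exp (y ++ z) = Exp y ++ Exp z := by simp [Exp]

theorem exp_reverse (y : List (B × ℕ)) : Exp y.reverse = (Exp y).reverse := by
  induction y with
  | nil => rfl
  | cons p y ih => rw [List.reverse_cons, exp_append, ih, exp_cons, exp_cons]; simp [exp_nil]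

/-- Words with multiplicities in which only `t0` carries multiplicities, and every second letter
is `c0`. -/
def Good (t0 c0 : B) (y : List (B × ℕ)) : Prop :=
  (∀ p ∈ y, 1 ≤ p.2 ∧ (p.1 ≠ t0 → p.2 = 1)) ∧
    ∀ p q, [p, q] <:+: y → p = (c0, 1) ∨ q = (c0, 1)

theorem Good.sub {t0 c0 : B} {y z : List (B × ℕ)} (h : Good t0 c0 y) (hz : z <:+: y) :
    Good t0 c0 z :=
  ⟨fun p hp => h.1 p (hz.subset hp), fun p q hpq => h.2 p q (hpq.trans hz)⟩

theorem Good.rev {t0 c0 : B} {y : List (B × ℕ)} (h : Good t0 c0 y) : Good t0 c0 y.reverse := by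
  refine ⟨fun p hp => h.1 p (by simpa using hp), fun p q hpq => ?_⟩
  have : [q, p] <:+: y := by
    rw [← List.reverse_infix] at hpq
    simpa using hpq
  exact (h.2 q p this).symm

theorem exp_length {t0 c0 : B} {y : List (B × ℕ)} (h : Good t0 c0 y) :
    y.length ≤ (Exp y).length := by
  induction y with
  | nil => simp
  | cons p y ih =>
    have h1 := ih (h.sub ⟨[p], [], by simp⟩)
    have h2 := (h.1 p (by simp)).1
    rw [exp_cons]
    simp only [List.length_cons, List.length_append, List.length_replicate]
    omega

/-- Cut an expanded word at a letter different from `t0`. -/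
theorem exp_cut {t0 c0 : B} {y : List (B × ℕ)} (hg : Good t0 c0 y) {S T : List B} {b : B}
    (hb : b ≠ t0) (h : Exp y = S ++ b :: T) :
    ∃ y₁ y₂, y = y₁ ++ (b, 1) :: y₂ ∧ Exp y₁ = S ∧ Exp y₂ = T := by
  induction y generalizing S with
  | nil =>
    exfalso
    have := congrArg List.length h
    simp [exp_nil] at this
  | cons p y ih =>
    have hg' : Good t0 c0 y := hg.sub ⟨[p], [], by simp⟩
    have hp := hg.1 p (by simp)
    rw [exp_cons] at h
    rcases List.append_eq_append_iff.1 h with ⟨a', h1, h2⟩ | ⟨c', h1, h2⟩
    · -- S = replicate ++ a'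
      obtain ⟨y₁, y₂, h3, h4, h5⟩ := ih hg' h2
      exact ⟨p :: y₁, y₂, by rw [h3]; rfl, by rw [exp_cons, h4, h1], h5⟩
    · -- replicate = S ++ c'
      cases c' with
      | nil =>
        rw [List.append_nil] at h1
        rw [List.nil_append] at h2
        obtain ⟨y₁, y₂, h3, h4, h5⟩ := ih (S := []) hg' (by rw [← h2]; rfl)
        refine ⟨p :: y₁, y₂, by rw [h3]; rfl, by rw [exp_cons, h4, ← h1]; simp, h5⟩
      | cons d c' =>
        rw [List.cons_append, List.cons.injEq] at h2
        obtain ⟨rfl, h2⟩ := h2
        have hb1 : b = p.1 := by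
          have : b ∈ List.replicate p.2 p.1 := by rw [h1]; simp
          exact (List.mem_replicate.1 this).2
        have hp1 : p.2 = 1 := hp.2 (by rw [← hb1]; exact hb)
        have hpe : p = (b, 1) := Prod.ext hb1.symm hp1
        rw [hp1] at h1
        have hl := congrArg List.length h1
        simp only [List.length_replicate, List.length_append, List.length_cons] at hl
        have hS : S = [] := List.length_eq_zero_iff.1 (by omega)
        have hc : c' = [] := List.length_eq_zero_iff.1 (by omega)
        subst hS hc
        exact ⟨[], y, by rw [hpe]; rfl, rfl, by rw [h2]; rfl⟩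

/-- The relation between a letter `α`, followed by `t0^i` and a block boundary, and the letter
with multiplicity before this boundary. -/
def Rel (t0 c0 : B) (i : ℕ) (α : B) (p : B × ℕ) : Prop :=
  (i = 0 ∧ α = p.1) ∨
    (1 ≤ i ∧ p.1 = t0 ∧ ((p.2 = i ∧ α = c0) ∨ (i < p.2 ∧ α = t0)))

theorem exp_right {t0 c0 : B} (hc : c0 ≠ t0) {y : List (B × ℕ)} (hg : Good t0 c0 y) {T : List B}
    {j : ℕ} {β : B} (h : Exp y = List.replicate j t0 ++ β :: T) :
    ∃ q y', y = q :: y' ∧ Rel t0 c0 j β q := by
  cases y with
  | nil =>
    exfalso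
    have := congrArg List.length h
    simp [exp_nil] at this
  | cons q y =>
    refine ⟨q, y, rfl, ?_⟩
    have hq := hg.1 q (by simp)
    rw [exp_cons] at h
    rcases Nat.eq_zero_or_pos j with rfl | hj
    · left
      refine ⟨rfl, ?_⟩
      obtain ⟨m, hm⟩ := Nat.exists_eq_add_of_le hq.1
      rw [hm, Nat.add_comm, List.replicate_succ] at h
      simp only [List.cons_append, List.replicate_zero, List.nil_append, List.cons.injEq] at h
      exact h.1.symm
    · right
      have hq1 : q.1 = t0 := by
        obtain ⟨m, hm⟩ := Nat.exists_eq_add_of_le hq.1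
        obtain ⟨k, hk⟩ := Nat.exists_eq_add_of_le (show 1 ≤ j from hj)
        rw [hm, hk, Nat.add_comm 1 m, Nat.add_comm 1 k, List.replicate_succ,
          List.replicate_succ] at h
        simp only [List.cons_append, List.cons.injEq] at h
        exact h.1
      refine ⟨hj, hq1, ?_⟩
      rw [hq1] at h
      -- the next letter of `y`
      have hnext : ∀ r y', y = r :: y' → r = (c0, 1) := by
        intro r y' hy
        subst hy
        rcases hg.2 q r ⟨[], y', by simp⟩ with h1 | h1
        · exfalso; apply hc; rw [← hq1, h1]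
        · exact h1
      rcases lt_trichotomy q.2 j with hlt | heq | hgt
      · exfalso
        obtain ⟨k, hk⟩ := Nat.exists_eq_add_of_le hlt.le
        rw [hk, List.replicate_add, List.append_assoc] at h
        have h2 := List.append_cancel_left h
        have hk0 : 1 ≤ k := by omega
        obtain ⟨k', hk'⟩ := Nat.exists_eq_add_of_le hk0
        rw [hk', Nat.add_comm 1 k', List.replicate_succ] at h2
        cases y with
        | nil => simp [exp_nil] at h2
        | cons r y' =>
          have := hnext r y' rfl
          subst this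
          rw [exp_cons] at h2
          simp only [List.replicate_one, List.cons_append, List.cons.injEq] at h2
          exact hc h2.1
      · left
        refine ⟨heq, ?_⟩
        rw [heq] at h
        have h2 := List.append_cancel_left h
        cases y with
        | nil => simp [exp_nil] at h2
        | cons r y' =>
          have := hnext r y' rfl
          subst this
          rw [exp_cons] at h2
          simp only [List.replicate_one, List.cons_append, List.cons.injEq] at h2
          exact h2.1.symm
      · right
        refine ⟨hgt, ?_⟩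
        obtain ⟨k, hk⟩ := Nat.exists_eq_add_of_le hgt.le
        rw [hk, List.replicate_add, List.append_assoc] at h
        have h2 := List.append_cancel_left h
        have hk0 : 1 ≤ k := by omega
        obtain ⟨k', hk'⟩ := Nat.exists_eq_add_of_le hk0
        rw [hk', Nat.add_comm 1 k', List.replicate_succ] at h2
        simp only [List.cons_append, List.cons.injEq] at h2
        exact h2.1.symm

theorem exp_left {t0 c0 : B} (hc : c0 ≠ t0) {y : List (B × ℕ)} (hg : Good t0 c0 y) {S : List B}
    {i : ℕ} {α : B} (h : Exp y = S ++ α :: List.replicate i t0) :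
    ∃ p y', y = y' ++ [p] ∧ Rel t0 c0 i α p := by
  obtain ⟨q, y', h1, h2⟩ := exp_right hc hg.rev (T := S.reverse) (j := i) (β := α) (by
    rw [exp_reverse, h]; simp)
  refine ⟨q, y'.reverse, ?_, h2⟩
  have := congrArg List.reverse h1
  simpa using this

/-- Unique decoding of good words. -/
theorem exp_inj {t0 c0 : B} (hc : c0 ≠ t0) {y z : List (B × ℕ)} (hy : Good t0 c0 y)
    (hz : Good t0 c0 z) (h : Exp y = Exp z) : y = z := by
  induction y generalizing z with
  | nil =>
    have := exp_length hz
    rw [← h] at this
    simp only [exp_nil, List.length_nil, Nat.le_zero_eq] at this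
    exact (List.length_eq_zero_iff.1 this).symm
  | cons p y ih =>
    cases z with
    | nil =>
      have := exp_length hy
      rw [h] at this
      simp [exp_nil] at this
    | cons q z =>
      have hp := hy.1 p (by simp)
      have hq := hz.1 q (by simp)
      have hpq : p.1 = q.1 := by
        obtain ⟨m, hm⟩ := Nat.exists_eq_add_of_le hp.1
        obtain ⟨k, hk⟩ := Nat.exists_eq_add_of_le hq.1
        rw [exp_cons, exp_cons, hm, hk, Nat.add_comm 1 m, Nat.add_comm 1 k, List.replicate_succ,
          List.replicate_succ] at h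
        simp only [List.cons_append, List.cons.injEq] at h
        exact h.1
      have hy' : Good t0 c0 y := hy.sub ⟨[p], [], by simp⟩
      have hz' : Good t0 c0 z := hz.sub ⟨[q], [], by simp⟩
      have key : ∀ {p q : B × ℕ} {y z : List (B × ℕ)}, Good t0 c0 (p :: y) → p.1 = t0 →
          q.1 = t0 → p.2 < q.2 → Exp (p :: y) = Exp (q :: z) → False := by
        intro p q y z hg h1 h2 h3 h4
        obtain ⟨k, hk⟩ := Nat.exists_eq_add_of_le h3.le
        rw [exp_cons, exp_cons, h1, h2, hk, List.replicate_add, List.append_assoc] at h4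
        have h5 := List.append_cancel_left h4
        have hk0 : 1 ≤ k := by omega
        obtain ⟨k', hk'⟩ := Nat.exists_eq_add_of_le hk0
        rw [hk', Nat.add_comm 1 k', List.replicate_succ] at h5
        cases y with
        | nil => simp [exp_nil] at h5
        | cons r y' =>
          rcases hg.2 p r ⟨[], y', by simp⟩ with h6 | h6
          · apply hc; rw [← h1, h6]
          · subst h6
            rw [exp_cons] at h5
            simp only [List.replicate_one, List.cons_append, List.cons.injEq] at h5
            exact hc h5.1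
      have hpq2 : p.2 = q.2 := by
        by_cases ht : p.1 = t0
        · rcases lt_trichotomy p.2 q.2 with h1 | h1 | h1
          · exact (key hy ht (hpq ▸ ht) h1 h).elim
          · exact h1
          · exact (key hz (hpq ▸ ht) ht h1 h.symm).elim
        · rw [hp.2 ht, hq.2 (hpq ▸ ht)]
      have hpe : p = q := Prod.ext hpq hpq2
      subst hpe
      rw [exp_cons, exp_cons] at h
      rw [ih hy' hz' (List.append_cancel_left h)]

/-- Decompose a word which is not a power of `t0`. -/
theorem split_left {t0 : B} {x : List B} (hx : ∃ b ∈ x, b ≠ t0) :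
    ∃ i b W, b ≠ t0 ∧ x = List.replicate i t0 ++ b :: W := by
  induction x with
  | nil => obtain ⟨b, hb, -⟩ := hx; simp at hb
  | cons e x ih =>
    by_cases he : e = t0
    · subst he
      obtain ⟨b, hb, hb2⟩ := hx
      have hbx : b ∈ x := by
        rcases List.mem_cons.1 hb with h | h
        · exact absurd h hb2
        · exact h
      obtain ⟨i, b', W, h1, h2⟩ := ih ⟨b, hbx, hb2⟩
      exact ⟨i + 1, b', W, h1, by rw [h2, List.replicate_succ]; rfl⟩
    · exact ⟨0, e, x, he, rfl⟩

theorem split_right {t0 : B} {x : List B} (hx : ∃ b ∈ x, b ≠ t0) :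
    ∃ j b W, b ≠ t0 ∧ x = W ++ b :: List.replicate j t0 := by
  obtain ⟨j, b, W, h1, h2⟩ := split_left (t0 := t0) (x := x.reverse) (by simpa using hx)
  refine ⟨j, b, W.reverse, h1, ?_⟩
  have := congrArg List.reverse h2
  simpa using this

theorem split_both {t0 : B} {x : List B} (hx : ∃ b ∈ x, b ≠ t0) :
    ∃ i j W, x = List.replicate i t0 ++ W ++ List.replicate j t0 ∧
      (∃ b ≠ t0, ∃ W', W = b :: W') ∧ (∃ b ≠ t0, ∃ W', W = W' ++ [b]) := by
  obtain ⟨i, b, V, hb, h1⟩ := split_left hx
  obtain ⟨j, d, V', hd, h2⟩ := split_right (t0 := t0) (x := b :: V) ⟨b, by simp, hb⟩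
  refine ⟨i, j, V' ++ [d], ?_, ⟨b, hb, ?_⟩, ⟨d, hd, V', rfl⟩⟩
  · rw [h1, h2]; simp
  · cases V' with
    | nil =>
      rw [List.nil_append, List.cons.injEq] at h2
      exact ⟨[], by rw [h2.1]; rfl⟩
    | cons e V' =>
      rw [List.cons_append, List.cons.injEq] at h2
      exact ⟨V' ++ [d], by rw [h2.1]; rfl⟩

/-- Every occurrence of `α t0^i W t0^j β` in an expanded good word comes from a factor `p Y q`
with `Exp Y = W`. -/
theorem exp_cut_both {t0 c0 : B} (hc : c0 ≠ t0) {y : List (B × ℕ)} (hg : Good t0 c0 y)
    {i j : ℕ} {α β : B} {W : List B} (hW1 : ∃ b ≠ t0, ∃ W', W = b :: W')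
    (hW2 : ∃ b ≠ t0, ∃ W', W = W' ++ [b])
    (h : α :: ((List.replicate i t0 ++ W ++ List.replicate j t0) ++ [β]) <:+: Exp y) :
    ∃ p q Y, p :: (Y ++ [q]) <:+: y ∧ Exp Y = W ∧ Rel t0 c0 i α p ∧ Rel t0 c0 j β q := by
  obtain ⟨S, T, hST⟩ := h
  obtain ⟨b, hb, W', hW'⟩ := hW1
  obtain ⟨d, hd, W'', hW''⟩ := hW2
  have h1 : Exp y = (S ++ α :: List.replicate i t0) ++ b :: (W' ++ List.replicate j t0 ++ β :: T) := by
    rw [← hST, hW']; simp
  obtain ⟨y₁, y₂, h2, h3, h4⟩ := exp_cut hg hb h1
  have h5 : Exp ((b, 1) :: y₂) = W'' ++ d :: (List.replicate j t0 ++ β :: T) := by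
    rw [exp_cons, h4]
    have : W'' ++ d :: (List.replicate j t0 ++ β :: T) =
        (W'' ++ [d]) ++ (List.replicate j t0 ++ β :: T) := by simp
    rw [this, ← hW'', hW']; simp
  have hg2 : Good t0 c0 ((b, 1) :: y₂) := hg.sub ⟨y₁, [], by rw [h2]; simp⟩
  obtain ⟨y₃, y₄, h6, h7, h8⟩ := exp_cut hg2 hd h5
  have hg1 : Good t0 c0 y₁ := hg.sub ⟨[], (b, 1) :: y₂, by rw [h2]; simp⟩
  have hg4 : Good t0 c0 y₄ := hg2.sub ⟨y₃ ++ [(d, 1)], [], by rw [h6]; simp⟩
  obtain ⟨p, y₁', h9, h10⟩ := exp_left hc hg1 h3
  obtain ⟨q, y₄', h11, h12⟩ := exp_right hc hg4 h8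
  refine ⟨p, q, y₃ ++ [(d, 1)], ⟨y₁', y₄', ?_⟩, ?_, h10, h12⟩
  · rw [h2, h6, h9, h11]; simp
  · rw [exp_append, h7, exp_cons, exp_nil, hW'']; simp

open Classical in
/-- The letter read at distance `i` from a block boundary. -/
noncomputable def ff (t0 c0 : B) (i : ℕ) (p : B × ℕ) : B :=
  if i = 0 then p.1 else if p.2 = i then c0 else t0

theorem Rel.eq {t0 c0 : B} {i : ℕ} {α : B} {p : B × ℕ} (h : Rel t0 c0 i α p) :
    α = ff t0 c0 i p := by
  unfold ff
  rcases h with ⟨h1, h2⟩ | ⟨h1, h2, ⟨h3, h4⟩ | ⟨h3, h4⟩⟩
  · rw [if_pos h1, h2]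
  · rw [if_neg (by omega), if_pos h3, h4]
  · rw [if_neg (by omega), if_neg (by omega), h4]

theorem cross_lt {t0 c0 : B} {i j : ℕ} (hij : i < j) {E : B × ℕ → B × ℕ → Prop}
    {s' t' : B × ℕ} (hE : ∀ p q, E p q → p = s' ∨ q = s' ∨ (p = t' ∧ q = t')) :
    ∃ s t, ∀ α β p q, Rel t0 c0 i α p → Rel t0 c0 j β q → E p q → α = s ∨ β = t := by
  have hj : ∀ {β q}, Rel t0 c0 j β q → q.1 = t0 ∧ j ≤ q.2 := by
    intro β q h
    rcases h with ⟨h1, h2⟩ | ⟨h1, h2, ⟨h3, h4⟩ | ⟨h3, h4⟩⟩
    · omega
    · exact ⟨h2, by omega⟩
    · exact ⟨h2, by omega⟩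
  rcases Nat.eq_zero_or_pos i with rfl | hi
  · have h0 : ∀ {α p}, Rel t0 c0 0 α p → α = p.1 := by
      intro α p h
      rcases h with ⟨h1, h2⟩ | ⟨h1, h2, h3⟩
      · exact h2
      · omega
    by_cases hs : s'.1 = t0
    · refine ⟨t0, ff t0 c0 j s', fun α β p q hp hq hpq => ?_⟩
      rcases hE p q hpq with h | h | ⟨h, h'⟩
      · left; rw [h0 hp, h, hs]
      · right; rw [hq.eq, h]
      · left
        have := (hj hq).1
        rw [h0 hp, h, ← h', this]
    · refine ⟨s'.1, ff t0 c0 j t', fun α β p q hp hq hpq => ?_⟩
      rcases hE p q hpq with h | h | ⟨h, h'⟩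
      · left; rw [h0 hp, h]
      · exact absurd (h ▸ (hj hq).1) hs
      · right; rw [hq.eq, h']
  · have hp' : ∀ {α p}, Rel t0 c0 i α p → p.1 = t0 ∧ ((p.2 = i ∧ α = c0) ∨ (i < p.2 ∧ α = t0)) := by
      intro α p h
      rcases h with ⟨h1, h2⟩ | ⟨h1, h2, h3⟩
      · omega
      · exact ⟨h2, h3⟩
    by_cases hs : s' = (t0, i)
    · refine ⟨c0, ff t0 c0 j t', fun α β p q hp hq hpq => ?_⟩
      rcases hE p q hpq with h | h | ⟨h, h'⟩
      · left
        have h2 := (hp' hp).2
        rw [h, hs] at h2
        rcases h2 with ⟨-, h3⟩ | ⟨h3, -⟩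
        · exact h3
        · exact absurd h3 (lt_irrefl _)
      · exfalso
        have h2 := (hj hq).2
        rw [h, hs] at h2
        simp only at h2
        omega
      · right; rw [hq.eq, h']
    · refine ⟨t0, ff t0 c0 j s', fun α β p q hp hq hpq => ?_⟩
      rcases hE p q hpq with h | h | ⟨h, h'⟩
      · left
        obtain ⟨h1, h2⟩ := hp' hp
        rcases h2 with ⟨h3, -⟩ | ⟨-, h3⟩
        · exact absurd (h ▸ Prod.ext h1 h3) hs
        · exact h3
      · right; rw [hq.eq, h]
      · left
        obtain ⟨h1, h2⟩ := hp' hp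
        have h4 := (hj hq).2
        rw [h', ← h] at h4
        rcases h2 with ⟨h3, -⟩ | ⟨-, h3⟩
        · omega
        · exact h3

theorem cross_ne {t0 c0 : B} {i j : ℕ} (hij : i ≠ j) {E : B × ℕ → B × ℕ → Prop}
    {s' t' : B × ℕ} (hE : ∀ p q, E p q → p = s' ∨ q = s' ∨ (p = t' ∧ q = t')) :
    ∃ s t, ∀ α β p q, Rel t0 c0 i α p → Rel t0 c0 j β q → E p q → α = s ∨ β = t := by
  rcases lt_or_gt_of_ne hij with h | h
  · exact cross_lt h hE
  · obtain ⟨s, t, hst⟩ := cross_lt (t0 := t0) (c0 := c0) h (E := fun q p => E p q) (s' := s')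
      (t' := t') (fun q p hpq => by
        rcases hE p q hpq with h1 | h1 | ⟨h1, h2⟩
        · exact Or.inr (Or.inl h1)
        · exact Or.inl h1
        · exact Or.inr (Or.inr ⟨h2, h1⟩))
    exact ⟨t, s, fun α β p q hp hq hpq => (hst β α q p hq hp hpq).symm⟩

/-- The expanded language. -/
def ExpCl (K : List (B × ℕ) → Prop) : List B → Prop := fun x => ∃ y, K y ∧ x <:+: Exp y

theorem inv_exp {t0 c0 : B} (hc : c0 ≠ t0) {K : List (B × ℕ) → Prop}
    (hK : ∀ {v w : List (B × ℕ)}, K w → v <:+: w → K v) (hg : ∀ y, K y → Good t0 c0 y) {n : ℕ}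
    (h : ∀ x : List (B × ℕ), x.length < n → Inv K x) (x : List B) (hx : x.length < n) :
    Inv (ExpCl K) x := by
  by_cases hall : ∃ b ∈ x, b ≠ t0
  · obtain ⟨i, j, W, hxW, hW1, hW2⟩ := split_both hall
    by_cases hex : ∃ α β, ExpCl K (α :: (x ++ [β]))
    · obtain ⟨α, β, y, hy, hab⟩ := hex
      rw [hxW] at hab
      obtain ⟨p, q, Y, hY, hYW, -, -⟩ := exp_cut_both hc (hg y hy) hW1 hW2 hab
      have hKY : K Y := hK hy (List.IsInfix.trans ⟨[p], [q], by simp⟩ hY)
      have hgY : Good t0 c0 Y := hg Y hKY
      have key : ∀ α β, ExpCl K (α :: (x ++ [β])) →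
          ∃ p q, K (p :: (Y ++ [q])) ∧ Rel t0 c0 i α p ∧ Rel t0 c0 j β q := by
        rintro α β ⟨y', hy', hab'⟩
        rw [hxW] at hab'
        obtain ⟨p', q', Y', h1, h2, h3, h4⟩ := exp_cut_both hc (hg y' hy') hW1 hW2 hab'
        have hKY' : K (p' :: (Y' ++ [q'])) := hK hy' h1
        have hgY' : Good t0 c0 Y' := hg Y' (hK hKY' ⟨[p'], [q'], by simp⟩)
        have : Y' = Y := exp_inj hc hgY' hgY (by rw [h2, hYW])
        subst this
        exact ⟨p', q', hKY', h3, h4⟩
      have hlen : Y.length < n := by
        have h1 := exp_length hgY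
        have h2 := congrArg List.length hxW
        rw [hYW] at h1
        simp only [List.length_append, List.length_replicate] at h2
        omega
      have hI := h Y hlen
      -- palindromicity
      have hW3 : i = j → Y.reverse = Y → x.reverse = x := by
        intro h1 h2
        have h3 : W.reverse = W := by rw [← hYW, ← exp_reverse, h2]
        rw [hxW, h1]; simp [h3]
      have hW4 : x.reverse = x → i = j ∧ Y.reverse = Y := by
        intro h1
        rw [hxW] at h1
        simp only [List.reverse_append, List.reverse_replicate] at h1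
        -- compare the run lengths
        have run : ∀ {a b : ℕ} {V V' : List B}, (∃ e ≠ t0, ∃ V₁, V = e :: V₁) →
            (∃ e ≠ t0, ∃ V₁, V' = e :: V₁) →
            List.replicate a t0 ++ V = List.replicate b t0 ++ V' → b ≤ a := by
          intro a b V V' h1 _ h3
          obtain ⟨e, he, V₁, rfl⟩ := h1
          by_contra hlt
          obtain ⟨k, hk⟩ := Nat.exists_eq_add_of_le (show a ≤ b by omega)
          rw [hk, List.replicate_add, List.append_assoc] at h3
          have h4 := List.append_cancel_left h3
          obtain ⟨k', hk'⟩ := Nat.exists_eq_add_of_le (show 1 ≤ k by omega)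
          rw [hk', Nat.add_comm 1 k', List.replicate_succ] at h4
          simp only [List.cons_append, List.cons.injEq] at h4
          exact he h4.1
        have hWr : ∃ e ≠ t0, ∃ V₁, W.reverse = e :: V₁ := by
          obtain ⟨b, hb, W', rfl⟩ := hW2
          exact ⟨b, hb, W'.reverse, by simp⟩
        have e1 : ∃ e ≠ t0, ∃ V₁, W.reverse ++ List.replicate i t0 = e :: V₁ := by
          obtain ⟨e, he, V₁, h5⟩ := hWr
          exact ⟨e, he, V₁ ++ List.replicate i t0, by rw [h5]; rfl⟩
        have e2 : ∃ e ≠ t0, ∃ V₁, W ++ List.replicate j t0 = e :: V₁ := by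
          obtain ⟨e, he, V₁, h5⟩ := hW1
          exact ⟨e, he, V₁ ++ List.replicate j t0, by rw [h5]; rfl⟩
        rw [List.append_assoc] at h1
        have r1 := run e1 e2 h1
        have r2 := run e2 e1 h1.symm
        have hij : i = j := le_antisymm r1 r2
        refine ⟨hij, ?_⟩
        rw [hij] at h1
        have h5 := List.append_cancel_left h1
        have h6 := List.append_cancel_right h5
        exact exp_inj hc hgY.rev hgY (by rw [exp_reverse, hYW, h6])
      by_cases hYp : Y.reverse = Y
      · obtain ⟨s', t', hst⟩ := hI.1 hYp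
        refine ⟨fun hxp => ?_, fun hxp => ?_⟩
        · obtain ⟨rfl, -⟩ := hW4 hxp
          refine ⟨ff t0 c0 i s', ff t0 c0 i t', fun α β hab => ?_⟩
          obtain ⟨p, q, h1, h2, h3⟩ := key α β hab
          rcases hst p q h1 with h4 | h4 | ⟨h4, h5⟩
          · left; rw [h2.eq, h4]
          · right; left; rw [h3.eq, h4]
          · right; right; exact ⟨by rw [h2.eq, h4], by rw [h3.eq, h5]⟩
        · have hij : i ≠ j := fun hh => hxp (hW3 hh hYp)
          obtain ⟨s, t, hc2⟩ := cross_ne (t0 := t0) (c0 := c0) hij
            (E := fun p q => K (p :: (Y ++ [q]))) hst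
          refine ⟨s, t, fun α β hab => ?_⟩
          obtain ⟨p, q, h1, h2, h3⟩ := key α β hab
          exact hc2 α β p q h2 h3 h1
      · refine ⟨fun hxp => absurd (hW4 hxp).2 hYp, fun _ => ?_⟩
        obtain ⟨s', t', hst⟩ := hI.2 hYp
        refine ⟨ff t0 c0 i s', ff t0 c0 j t', fun α β hab => ?_⟩
        obtain ⟨p, q, h1, h2, h3⟩ := key α β hab
        rcases hst p q h1 with h4 | h4
        · left; rw [h2.eq, h4]
        · right; rw [h3.eq, h4]
    · exact ⟨fun _ => ⟨t0, t0, fun p q hpq => absurd ⟨p, q, hpq⟩ hex⟩,
        fun _ => ⟨t0, t0, fun p q hpq => absurd ⟨p, q, hpq⟩ hex⟩⟩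
  · -- `x` is a power of `t0`
    have hxr : x = List.replicate x.length t0 := by
      rw [List.eq_replicate_iff]
      refine ⟨rfl, fun b hb => ?_⟩
      by_contra hne
      exact hall ⟨b, hb, hne⟩
    have hxp : x.reverse = x := by rw [hxr]; simp
    refine ⟨fun _ => ⟨c0, t0, fun α β hab => ?_⟩, fun hne => absurd hxp hne⟩
    -- if `α ≠ t0` then `α = c0` or `β = c0`
    have main : ∀ {y : List (B × ℕ)} {α β : B}, Good t0 c0 y → α ≠ t0 →
        α :: (x ++ [β]) <:+: Exp y → α = c0 ∨ β = c0 := by
      rintro y α β hgy hα ⟨S, T, hST⟩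
      have h1 : Exp y = S ++ α :: (x ++ β :: T) := by rw [← hST]; simp
      obtain ⟨y₁, y₂, h2, h3, h4⟩ := exp_cut hgy hα h1
      by_cases hαc : α = c0
      · exact Or.inl hαc
      right
      cases y₂ with
      | nil =>
        exfalso
        have := congrArg List.length h4
        simp [exp_nil] at this
      | cons r y₃ =>
        rcases hgy.2 (α, 1) r ⟨y₁, y₃, by rw [h2]; simp⟩ with h5 | h5
        · simp only [Prod.mk.injEq] at h5
          exact absurd h5.1 hαc
        · subst h5
          rw [exp_cons, List.replicate_one] at h4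
          cases x with
          | nil =>
            simp only [List.cons_append, List.nil_append, List.cons.injEq] at h4
            exact h4.1.symm
          | cons e x =>
            exfalso
            simp only [List.cons_append, List.cons.injEq] at h4
            apply hall
            exact ⟨c0, by simp [h4.1], hc⟩
    obtain ⟨y, hy, hab'⟩ := hab
    by_cases hα : α = t0
    · by_cases hβ : β = t0
      · exact Or.inr (Or.inr ⟨hα, hβ⟩)
      · have h1 : β :: (x ++ [α]) <:+: Exp y.reverse := by
          rw [exp_reverse, ← List.reverse_infix]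
          simpa [hxp] using hab'
        rcases main (hg y hy).rev hβ h1 with h2 | h2
        · exact Or.inr (Or.inl h2)
        · exact Or.inl h2
    · rcases main (hg y hy) hα hab' with h2 | h2
      · exact Or.inl h2
      · exact Or.inr (Or.inl h2)

/-! ### The induction -/

/-- The language of the images of words of `L` under `b ↦ (β b)^(m b)`. -/
def LX (L : List A → Prop) (β : A → B) (m : A → ℕ) : List B → Prop :=
  fun x => ∃ w, L w ∧ x <:+: w.flatMap fun b => List.replicate (m b) (β b)

theorem LX_sub {L : List A → Prop} {β : A → B} {m : A → ℕ} {v w : List B}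
    (hw : LX L β m w) (hv : v <:+: w) : LX L β m v := by
  obtain ⟨y, hy, h⟩ := hw
  exact ⟨y, hy, hv.trans h⟩

theorem iter_psiCl {K : List B → Prop} (hK : ∀ {v w : List B}, K w → v <:+: w → K v) {c : B}
    (k : ℕ) {y z : List B} (hy : K y) (hz : z <:+: (fun y => psi c y ++ [c])^[k] y) :
    (PsiCl c)^[k] K z := by
  induction k generalizing z with
  | zero => exact hK hy hz
  | succ k ih =>
    rw [Function.iterate_succ_apply'] at hz ⊢
    exact ⟨_, ih List.infix_rfl, hz⟩

open Classical in
theorem iter_psi (c : B) (k : ℕ) (y : List B) :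
    (fun y => psi c y ++ [c])^[k] y =
      (y.flatMap fun d => if d = c then [c] else List.replicate k c ++ [d]) ++
        List.replicate k c := by
  have hrep : ∀ k, psi c (List.replicate k c) = List.replicate k c := by
    intro k
    induction k with
    | zero => rfl
    | succ k ih => rw [List.replicate_succ, psi_cons_self, ih]
  have hstep : ∀ k (y : List B),
      psi c (y.flatMap fun d => if d = c then [c] else List.replicate k c ++ [d]) =
        y.flatMap fun d => if d = c then [c] else List.replicate (k + 1) c ++ [d] := by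
    intro k y
    induction y with
    | nil => rfl
    | cons d y ih =>
      rw [List.flatMap_cons, List.flatMap_cons, psi_append, ih]
      congr 1
      by_cases hd : d = c
      · rw [if_pos hd, if_pos hd, psi_cons_self, psi_nil]
      · rw [if_neg hd, if_neg hd, psi_append, hrep, psi_cons_ne hd, psi_nil,
          List.replicate_succ']
        simp
  induction k with
  | zero =>
    simp only [Function.iterate_zero, id_eq, List.replicate_zero, List.nil_append,
      List.append_nil]
    have : ∀ d, (if d = c then [c] else [d]) = [d] := by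
      intro d; split_ifs with h
      · rw [h]
      · rfl
    simp [this]
  | succ k ih =>
    rw [Function.iterate_succ_apply', ih, psi_append, hstep, hrep, List.replicate_succ']
    simp

open Classical in
theorem LX_psi {L : List A → Prop} (hL : Epi L) {a : A} (ha : L [a])
    (hsep : ∀ b c, L [b, c] → b = a ∨ c = a) {β : A → B} {m : A → ℕ}
    (hA : ∀ b, β b ≠ β a → m b = 1) {z : List B} (hz : LX L β m z) :
    (PsiCl (β a))^[m a] (LX (fun w => L (psi a w ++ [a])) β
      (fun b => if b = a then m a else if β b = β a then m a + m b else m b)) z := by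
  obtain ⟨w, hw, hzw⟩ := hz
  obtain ⟨x, hx, hwx⟩ := derived_cover hL ha hsep hw
  set m' : A → ℕ := fun b => if b = a then m a else if β b = β a then m a + m b else m b
    with hm'
  refine iter_psiCl (fun h1 h2 => LX_sub h1 h2) (m a)
    (y := x.flatMap fun b => List.replicate (m' b) (β b)) ⟨x, hx, List.infix_rfl⟩ ?_
  have hX : ∀ x : List A, ((psi a x ++ [a]).flatMap fun b => List.replicate (m b) (β b)) =
      (fun y => psi (β a) y ++ [β a])^[m a] (x.flatMap fun b => List.replicate (m' b) (β b)) := by
    intro x
    rw [iter_psi]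
    have hrep : ∀ k, (List.replicate k (β a)).flatMap
        (fun d => if d = β a then [β a] else List.replicate (m a) (β a) ++ [d]) =
          List.replicate k (β a) := by
      intro k
      induction k with
      | zero => rfl
      | succ k ih => rw [List.replicate_succ, List.flatMap_cons, ih, if_pos rfl]; rfl
    induction x with
    | nil => simp [psi_nil]
    | cons b x ih =>
      have e1 : ((b :: x).flatMap fun b => List.replicate (m' b) (β b)) =
          List.replicate (m' b) (β b) ++ (x.flatMap fun b => List.replicate (m' b) (β b)) :=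
        List.flatMap_cons
      have e2 : ∀ (Y Z : List B), (Y ++ Z).flatMap
          (fun d => if d = β a then [β a] else List.replicate (m a) (β a) ++ [d]) =
          Y.flatMap (fun d => if d = β a then [β a] else List.replicate (m a) (β a) ++ [d]) ++
          Z.flatMap (fun d => if d = β a then [β a] else List.replicate (m a) (β a) ++ [d]) :=
        fun Y Z => List.flatMap_append
      rw [e1, e2, List.append_assoc, ← ih]
      by_cases hb : b = a
      · have h1 : m' b = m a := by simp [hm', hb]
        rw [h1, hb, psi_cons_self, hrep]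
        simp
      · rw [psi_cons_ne hb]
        by_cases hc : β b = β a
        · have h1 : m' b = m a + m b := by simp [hm', hb, hc]
          rw [h1, hc, hrep]
          simp only [List.flatMap_cons, List.flatMap_append, List.cons_append, List.flatMap_nil,
            List.append_nil, hc]
          rw [List.replicate_add, List.append_assoc]
        · have h1 : m' b = 1 := by simp [hm', hb, hc, hA b hc]
          rw [h1]
          simp [hc, hA b hc]
  rw [← hX]
  obtain ⟨s, t, hst⟩ := hwx
  refine hzw.trans ?_
  rw [← hst]
  exact ⟨s.flatMap fun b => List.replicate (m b) (β b), t.flatMap fun b => List.replicate (m b) (β b),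
    by simp⟩

open Classical in
theorem inv_main {A : Type*} (n : ℕ) : ∀ {B : Type*} (L : List A → Prop), Epi L →
    ∀ (β : A → B) (m : A → ℕ), (∀ b, 1 ≤ m b) → ∀ t0 : B, (∀ b, β b ≠ t0 → m b = 1) →
      ∀ x : List B, x.length < n → Inv (LX L β m) x := by
  induction n with
  | zero => intro B L _ β m _ t0 _ x hx; omega
  | succ n ih =>
    intro B L hL β m hm t0 ht x hx
    have caseA : ∀ {B : Type _} (β : A → B) (m : A → ℕ), (∀ b, 1 ≤ m b) → ∀ a, L [a] →
        (∀ b c, L [b, c] → b = a ∨ c = a) → (∀ b, β b ≠ β a → m b = 1) →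
        ∀ x : List B, x.length < n + 1 → Inv (LX L β m) x := by
      intro B β m hm a ha hsep hA x hx
      have h1 := inv_psi_iter (K := LX (fun w => L (psi a w ++ [a])) β
        (fun b => if b = a then m a else if β b = β a then m a + m b else m b))
        (fun h1 h2 => LX_sub h1 h2) (c := β a) (n := n)
        (fun x hx => ih _ (epi_derived hL ha hsep) β _ (by
          intro b
          have := hm a
          have := hm b
          split_ifs <;> omega) (β a) (by
          intro b hb
          have hba : b ≠ a := by rintro rfl; exact hb rfl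
          rw [if_neg hba, if_neg hb]; exact hA b hb) x hx) (m a)
      refine (h1.2 x (by have := hm a; omega)).anti ?_
      intro y hy
      exact LX_psi hL ha hsep hA hy
    obtain ⟨a, ha, hsep⟩ := exists_sep hL
    by_cases hta : β a = t0
    · exact caseA β m hm a ha hsep (by rw [hta]; exact ht) x hx
    · have hma : m a = 1 := ht a hta
      have hmap : ∀ w : List A, (w.flatMap fun b => List.replicate 1 (β b, m b)) =
          w.map fun b => (β b, m b) := by
        intro w
        induction w with
        | nil => rfl
        | cons b w ih => rw [List.flatMap_cons, ih]; rfl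
      have hI := inv_exp (t0 := t0) (c0 := β a) hta
        (K := LX L (fun b => (β b, m b)) (fun _ => 1)) (fun h1 h2 => LX_sub h1 h2) (by
          rintro y ⟨w, hw, hy⟩
          rw [hmap] at hy
          refine ⟨?_, ?_⟩
          · intro p hp
            obtain ⟨b, -, rfl⟩ := List.mem_map.1 (hy.subset hp)
            exact ⟨hm b, ht b⟩
          · intro p q hpq
            obtain ⟨S, T, hST⟩ := hpq.trans hy
            have h1 := hST.symm
            rw [List.append_assoc] at h1
            obtain ⟨w₁, w₂, h2, h3, h4⟩ := List.map_eq_append_iff.1 h1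
            obtain ⟨w₃, w₄, h5, h6, h7⟩ := List.map_eq_append_iff.1 h4
            obtain ⟨b, w₅, h8, h9, h10⟩ := List.map_eq_cons_iff.1 h6
            obtain ⟨c, w₆, h11, h12, h13⟩ := List.map_eq_cons_iff.1 h10
            have h14 : w₆ = [] := by simpa using h13
            subst h14 h11 h8 h5 h2
            have h15 := hsep b c (hL.fact hw ⟨w₁, w₄, by simp⟩)
            rcases h15 with h15 | h15
            · left; rw [← h9, h15, hma]
            · right; rw [← h12, h15, hma]) (n := n + 1)
        (fun x hx => caseA (fun b => (β b, m b)) (fun _ => 1) (fun _ => le_rfl) a ha hsep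
          (fun _ _ => rfl) x hx) x hx
      refine hI.anti ?_
      rintro y ⟨w, hw, hy⟩
      refine ⟨w.map fun b => (β b, m b), ⟨w, hw, ?_⟩, ?_⟩
      · rw [hmap]
      · have : Exp (w.map fun b => (β b, m b)) = w.flatMap fun b => List.replicate (m b) (β b) := by
          simp [Exp, List.flatMap_map]
        rw [this]; exact hy

/-! ### The result -/

theorem ff_of_inv {u : ℕ → B} {w : List B} {K : List B → Prop} (h : Inv K w)
    (hK : ∀ y, Lang u y → K y) : FF u w := by
  classical
  intro θ hθ
  by_cases hw : w.reverse = w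
  · obtain ⟨s, t, hst⟩ := h.1 hw
    have hanti := hθ hw
    have hdiag : ∀ a, θ a a = 0 := by
      intro a
      have := hanti a a
      linarith
    refine ⟨θ s, θ s, fun a b hab => ?_⟩
    rcases hst a b (hK _ hab) with h1 | h1 | ⟨h1, h2⟩
    · rw [h1, hdiag, sub_zero]
    · rw [h1, hdiag, zero_sub, hanti]
    · rw [h1, h2, hdiag, sub_self]
  · obtain ⟨s, t, hst⟩ := h.2 hw
    refine ⟨fun a => if a = s then 0 else θ s t - θ a t, θ s, fun a b hab => ?_⟩
    rcases hst a b (hK _ hab) with h1 | h1
    · rw [h1]; beta_reduce; rw [if_pos rfl, sub_zero]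
    · rw [h1]
      by_cases ha : a = s
      · rw [ha]; beta_reduce; rw [if_pos rfl, sub_zero]
      · beta_reduce; rw [if_neg ha]; ring

theorem fac_map {u : ℕ → A} (ζ : A → B) (i n : ℕ) :
    fac (fun k => ζ (u k)) i n = (fac u i n).map ζ := by
  simp [fac]

/-- **Letter-to-letter projections of episturmian words are rich.** For every episturmian word
`u` over an arbitrary alphabet and every map `ζ` between alphabets, the word `ζ(u)` is rich. -/
theorem result {A B : Type*} (u : ℕ → A) (hu : Episturmian u) (ζ : A → B) :
    Rich (fun n => ζ (u n)) := by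
  have hL := epi_lang hu
  have hrev : ∀ w, Lang (fun n => ζ (u n)) w → Lang (fun n => ζ (u n)) w.reverse := by
    rintro w ⟨i, hi⟩
    rw [fac_map] at hi
    obtain ⟨j, hj⟩ := hu.1 _ (lang_fac u i w.length)
    refine ⟨j, ?_⟩
    rw [fac_map, List.length_reverse]
    rw [List.length_reverse, fac_length] at hj
    rw [← hj, List.map_reverse, ← hi]
  have hsub : ∀ w, Lang (fun n => ζ (u n)) w → LX (Lang u) ζ (fun _ => 1) w := by
    rintro w ⟨i, hi⟩
    rw [fac_map] at hi
    refine ⟨fac u i w.length, lang_fac _ _ _, ?_⟩
    have : ∀ v : List A, (v.flatMap fun b => List.replicate 1 (ζ b)) = v.map ζ := by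
      intro v
      induction v with
      | nil => rfl
      | cons b v ih => rw [List.flatMap_cons, ih]; rfl
    rw [this, ← hi]
  have hF : ∀ w, FF (fun n => ζ (u n)) w := fun w =>
    ff_of_inv (inv_main (w.length + 1) (Lang u) hL ζ (fun _ => 1) (fun _ => le_rfl) (ζ (u 0))
      (fun _ _ => rfl) w (Nat.lt_succ_self _)) hsub
  have hP : ∀ n, Pot (fun n => ζ (u n)) n := by
    intro n
    induction n with
    | zero => exact pot_zero _
    | succ n ih => exact pot_succ hrev ih (fun w _ => hF w)
  intro w hw
  obtain ⟨i, hi⟩ := hw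
  unfold RichWord
  have := rich_of_ret (ret_of_pot hP) i w.length
  rwa [← hi] at this

end Pool.Agent.Results.MP_8d80dd_co.ProjectionRich
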